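import Pool.Agent.H972R4.Fano.Main

set_option autoImplicit false
open Finset Filter Topology

namespace Pool.Agent.Results.MP_ba77d1_co.LimitValue

/-- `R(n, k)`: the `n × n` matrices with entries in `{0, 1}` with exactly `k` ones in every row. -/
def R (n k : ℕ) : Set (Matrix (Fin n) (Fin n) ℤ) :=
  {A | (∀ i j, A i j = 0 ∨ A i j = 1) ∧
    ∀ i, (Finset.univ.filter (fun j => A i j = 1)).card = k}

/-- `M_R(n, k)`: the maximal determinant of a matrix in `R(n, k)`. -/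
noncomputable def MR (n k : ℕ) : ℤ := sSup {d : ℤ | ∃ A ∈ R n k, A.det = d}

theorem card_eq_sum {I : Type} [Fintype I] (f : I → ℤ) (h : ∀ j, f j = 0 ∨ f j = 1) :
    ((Finset.univ.filter (fun j => f j = 1)).card : ℤ) = ∑ j, f j := by
  rw [Finset.card_filter]
  push_cast
  refine Finset.sum_congr rfl fun j _ => ?_
  rcases h j with h | h <;> simp [h]

theorem R_bound (n : ℕ) (A : Matrix (Fin n) (Fin n) ℤ) (hA : A ∈ R n 3) :
    ((A.det : ℤ) : ℝ) ≤ (24 : ℝ) ^ ((n : ℝ) / 7) := by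
  refine Pool.Agent.H972R4.Fano.fano_bound n A hA.1 ?_
  have h1 : (Finset.univ.filter (fun p : Fin n × Fin n => A p.1 p.2 ≠ 0)) ⊆
      Finset.univ.biUnion (fun i : Fin n =>
        (Finset.univ.filter (fun j => A i j = 1)).image (fun j => (i, j))) := by
    rintro ⟨i, j⟩ hp
    have hp' : A i j ≠ 0 := by simpa using hp
    have h2 : A i j = 1 := (hA.1 i j).resolve_left hp'
    exact Finset.mem_biUnion.2 ⟨i, Finset.mem_univ _, Finset.mem_image.2 ⟨j, by simpa using h2, rfl⟩⟩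
  refine (Finset.card_le_card h1).trans ((Finset.card_biUnion_le_card_mul _ _ 3 ?_).trans ?_)
  · intro i _
    exact Finset.card_image_le.trans (hA.2 i).le
  · rw [Finset.card_univ, Fintype.card_fin, mul_comm]

/-- The Fano matrix. -/
def F0 : Fin 7 → Fin 7 → ℤ :=
  ![![1, 1, 0, 1, 0, 0, 0], ![0, 1, 1, 0, 1, 0, 0], ![0, 0, 1, 1, 0, 1, 0],
    ![0, 0, 0, 1, 1, 0, 1], ![1, 0, 0, 0, 1, 1, 0], ![0, 1, 0, 0, 0, 1, 1],
    ![1, 0, 1, 0, 0, 0, 1]]

def L0 : Fin 7 → Fin 7 → ℤ :=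
  ![![1, 0, 0, 0, 0, 0, 0], ![0, 1, 0, 0, 0, 0, 0], ![0, 0, 1, 0, 0, 0, 0],
    ![0, 0, 0, 1, 0, 0, 0], ![-1, 1, -1, 2, 1, 0, 0], ![-1, -1, 1, 0, 1, 2, 0],
    ![-1, -1, -1, 2, -1, 2, 2]]

def U0 : Fin 7 → Fin 7 → ℤ :=
  ![![1, 1, 0, 1, 0, 0, 0], ![0, 1, 1, 0, 1, 0, 0], ![0, 0, 1, 1, 0, 1, 0],
    ![0, 0, 0, 1, 1, 0, 1], ![0, 0, 0, 0, 4, 0, 2], ![0, 0, 0, 0, 0, 4, 2],
    ![0, 0, 0, 0, 0, 0, 6]]

/-- The Fano matrix as a matrix. -/
def F : Matrix (Fin 7) (Fin 7) ℤ := Matrix.of F0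
def L : Matrix (Fin 7) (Fin 7) ℤ := Matrix.of L0
def U : Matrix (Fin 7) (Fin 7) ℤ := Matrix.of U0

theorem F_det : F.det = 24 := by
  have h1 : L * F = U := by decide
  have h2 : L.det = 4 := by
    have h : ∀ i j : Fin 7, i < j → L0 i j = 0 := by decide
    rw [Matrix.det_of_isLowerTriangular L (fun i j hij => h i j hij)]
    decide
  have h3 : U.det = 96 := by
    have h : ∀ i j : Fin 7, j < i → U0 i j = 0 := by decide
    rw [Matrix.det_of_isUpperTriangular (M := U) (fun i j hij => h i j hij)]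
    decide
  have h4 : L.det * F.det = U.det := by rw [← Matrix.det_mul, h1]
  rw [h2, h3] at h4
  omega

/-- extra rows -/
def X (t r : ℕ) : Matrix (Fin r) (Fin 7 × Fin (t + 1)) ℤ :=
  fun _ p => if p = (0, 0) ∨ p = (1, 0) then 1 else 0

/-- the example on the index type `(Fin 7 × Fin (t+1)) ⊕ Fin r` -/
def B (t r : ℕ) : Matrix ((Fin 7 × Fin (t + 1)) ⊕ Fin r) ((Fin 7 × Fin (t + 1)) ⊕ Fin r) ℤ :=
  Matrix.fromBlocks (Matrix.blockDiagonal (fun _ : Fin (t + 1) => F)) 0 (X t r) 1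

theorem B_det (t r : ℕ) : (B t r).det = 24 ^ (t + 1) := by
  unfold B
  rw [Matrix.det_fromBlocks_zero₁₂, Matrix.det_blockDiagonal, Matrix.det_one, mul_one,
    Finset.prod_const, Finset.card_univ, Fintype.card_fin, F_det]

theorem B_01 (t r : ℕ) : ∀ i j, B t r i j = 0 ∨ B t r i j = 1 := by
  have hF : ∀ a b, F0 a b = 0 ∨ F0 a b = 1 := by decide
  rintro (⟨a, s⟩ | i) (⟨b, s'⟩ | j)
  · simp only [B, Matrix.fromBlocks_apply₁₁, Matrix.blockDiagonal_apply]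
    split_ifs
    · exact hF a b
    · left; rfl
  · left; rfl
  · simp only [B, Matrix.fromBlocks_apply₂₁, X]
    split_ifs
    · right; rfl
    · left; rfl
  · simp only [B, Matrix.fromBlocks_apply₂₂, Matrix.one_apply]
    split_ifs
    · right; rfl
    · left; rfl

theorem B_sum (t r : ℕ) : ∀ i, ∑ j, B t r i j = 3 := by
  have hF : ∀ a, ∑ b, F a b = 3 := by decide
  rintro (⟨a, s⟩ | i)
  · rw [Fintype.sum_sum_type]
    simp only [B, Matrix.fromBlocks_apply₁₁, Matrix.fromBlocks_apply₁₂, Matrix.zero_apply,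
      Finset.sum_const_zero, add_zero, Matrix.blockDiagonal_apply]
    rw [Fintype.sum_prod_type]
    simp only [Finset.sum_ite_eq, Finset.mem_univ, if_true]
    exact hF a
  · rw [Fintype.sum_sum_type]
    simp only [B, Matrix.fromBlocks_apply₂₁, Matrix.fromBlocks_apply₂₂, Matrix.one_apply,
      Finset.sum_ite_eq, Finset.mem_univ, if_true, X]
    have h1 : ∀ p : Fin 7 × Fin (t + 1), (if p = (0, 0) ∨ p = (1, 0) then (1 : ℤ) else 0) =
        (if p = (0, 0) then 1 else 0) + (if p = (1, 0) then 1 else 0) := by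
      intro p
      by_cases h : p = (0, 0)
      · subst h
        simp
      · simp [h]
    simp only [h1]
    rw [Finset.sum_add_distrib]
    simp

theorem exists_large (n : ℕ) (hn : 7 ≤ n) : ∃ A ∈ R n 3, A.det = 24 ^ (n / 7) := by
  obtain ⟨t, r, hr, hnt⟩ : ∃ t r, r < 7 ∧ n = 7 * (t + 1) + r :=
    ⟨n / 7 - 1, n % 7, Nat.mod_lt _ (by norm_num), by omega⟩
  have e : ((Fin 7 × Fin (t + 1)) ⊕ Fin r) ≃ Fin n :=
    Fintype.equivFinOfCardEq (by simp [hnt])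
  refine ⟨Matrix.reindex e e (B t r), ⟨?_, ?_⟩, ?_⟩
  · intro i j
    exact B_01 t r _ _
  · intro i
    have h := card_eq_sum (fun j => Matrix.reindex e e (B t r) i j) (fun j => B_01 t r _ _)
    have h2 : ∑ j, Matrix.reindex e e (B t r) i j = 3 := by
      simp only [Matrix.reindex_apply, Matrix.submatrix_apply]
      rw [Equiv.sum_comp e.symm (fun j => B t r (e.symm i) j)]
      exact B_sum t r _
    rw [h2] at h
    exact_mod_cast h
  · rw [Matrix.det_reindex_self, B_det]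
    congr 1
    omega

theorem MR_bdd (n : ℕ) : BddAbove {d : ℤ | ∃ A ∈ R n 3, A.det = d} := by
  refine ⟨⌊(24 : ℝ) ^ ((n : ℝ) / 7)⌋, ?_⟩
  rintro d ⟨A, hA, rfl⟩
  exact Int.le_floor.2 (R_bound n A hA)

theorem MR_lower (n : ℕ) (hn : 7 ≤ n) : (24 : ℤ) ^ (n / 7) ≤ MR n 3 := by
  obtain ⟨A, hA, hd⟩ := exists_large n hn
  exact le_csSup (MR_bdd n) ⟨A, hA, hd⟩

theorem MR_upper (n : ℕ) (hn : 7 ≤ n) : (MR n 3 : ℝ) ≤ (24 : ℝ) ^ ((n : ℝ) / 7) := by
  obtain ⟨A, hA, hd⟩ := exists_large n hn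
  have hne : {d : ℤ | ∃ A ∈ R n 3, A.det = d}.Nonempty := ⟨_, A, hA, hd⟩
  obtain ⟨A', hA', hd'⟩ := Int.csSup_mem hne (MR_bdd n)
  change A'.det = MR n 3 at hd'
  have := R_bound n A' hA'
  rwa [hd'] at this

theorem numeric : (24 : ℝ) ^ (1 / 7 : ℝ) < (40 / 11 : ℝ) ^ (11 / 36 : ℝ) * 2 ^ (7 / 36 : ℝ) := by
  refine lt_of_pow_lt_pow_left₀ 252 (by positivity) ?_
  rw [mul_pow, ← Real.rpow_natCast, ← Real.rpow_natCast, ← Real.rpow_natCast,
    ← Real.rpow_mul (by norm_num), ← Real.rpow_mul (by norm_num), ← Real.rpow_mul (by norm_num)]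
  have e1 : (1 / 7 : ℝ) * ((252 : ℕ) : ℝ) = ((36 : ℕ) : ℝ) := by norm_num
  have e2 : (11 / 36 : ℝ) * ((252 : ℕ) : ℝ) = ((77 : ℕ) : ℝ) := by norm_num
  have e3 : (7 / 36 : ℝ) * ((252 : ℕ) : ℝ) = ((49 : ℕ) : ℝ) := by norm_num
  rw [e1, e2, e3, Real.rpow_natCast, Real.rpow_natCast, Real.rpow_natCast]
  norm_num

theorem tendsto_main : Tendsto (fun n : ℕ => (MR n 3 : ℝ) ^ (1 / (n : ℝ))) atTop
    (𝓝 ((24 : ℝ) ^ (1 / 7 : ℝ))) := by
  have hlow : Tendsto (fun n : ℕ => (24 : ℝ) ^ (1 / 7 - 1 / (n : ℝ))) atTop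
      (𝓝 ((24 : ℝ) ^ (1 / 7 - 0 : ℝ))) := by
    exact ((Real.continuousAt_const_rpow (a := 24) (b := 1 / 7 - 0) (by norm_num)).tendsto).comp
      (tendsto_const_nhds.sub tendsto_one_div_atTop_nhds_zero_nat)
  rw [sub_zero] at hlow
  refine tendsto_of_tendsto_of_tendsto_of_le_of_le' hlow tendsto_const_nhds ?_ ?_
  · filter_upwards [eventually_ge_atTop 7] with n hn
    have hn0 : (0 : ℝ) < n := by
      have : 0 < n := by omega
      exact_mod_cast this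
    have h1 : ((24 : ℝ)) ^ (n / 7 : ℕ) ≤ (MR n 3 : ℝ) := by exact_mod_cast MR_lower n hn
    have h2 : (24 : ℝ) ^ ((n : ℝ) / 7 - 1) ≤ (24 : ℝ) ^ (n / 7 : ℕ) := by
      rw [← Real.rpow_natCast]
      refine Real.rpow_le_rpow_of_exponent_le (by norm_num) ?_
      have h3 : n ≤ 7 * (n / 7) + 6 := by omega
      have h4 : (n : ℝ) ≤ 7 * ((n / 7 : ℕ) : ℝ) + 6 := by exact_mod_cast h3
      linarith
    have h3 := Real.rpow_le_rpow (by positivity) (h2.trans h1)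
      (show 0 ≤ 1 / (n : ℝ) by positivity)
    rw [← Real.rpow_mul (by norm_num)] at h3
    refine le_trans (le_of_eq ?_) h3
    congr 1
    field_simp
  · filter_upwards [eventually_ge_atTop 7] with n hn
    have hn0 : (0 : ℝ) < n := by
      have : 0 < n := by omega
      exact_mod_cast this
    have h0 : (0 : ℝ) ≤ (MR n 3 : ℝ) := by
      have h1 : ((24 : ℝ)) ^ (n / 7 : ℕ) ≤ (MR n 3 : ℝ) := by exact_mod_cast MR_lower n hn
      exact le_trans (by positivity) h1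
    have h3 := Real.rpow_le_rpow h0 (MR_upper n hn) (show 0 ≤ 1 / (n : ℝ) by positivity)
    rw [← Real.rpow_mul (by norm_num)] at h3
    refine h3.trans (le_of_eq ?_)
    congr 1
    field_simp

/-- `M_R(n, 3)^(1/n)` converges to `24^(1/7)`; in particular its limsup is `24^(1/7)`, which is
smaller than `β₃ = (40/11)^(11/36) 2^(7/36)`. -/
theorem result :
    Tendsto (fun n : ℕ => (MR n 3 : ℝ) ^ (1 / (n : ℝ))) atTop (𝓝 ((24 : ℝ) ^ (1 / 7 : ℝ))) ∧
    limsup (fun n : ℕ => (MR n 3 : ℝ) ^ (1 / (n : ℝ))) atTop = (24 : ℝ) ^ (1 / 7 : ℝ) ∧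
    limsup (fun n : ℕ => (MR n 3 : ℝ) ^ (1 / (n : ℝ))) atTop <
      (40 / 11 : ℝ) ^ (11 / 36 : ℝ) * 2 ^ (7 / 36 : ℝ) := by
  refine ⟨tendsto_main, tendsto_main.limsup_eq, ?_⟩
  rw [tendsto_main.limsup_eq]
  exact numeric

end Pool.Agent.Results.MP_ba77d1_co.LimitValue
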